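import Mathlib

/-!
# Rich lines on a quadric in four-space

The points `(a, b, c, a * c - b ^ 2)` with `0 ≤ a < M ^ 3`, `0 ≤ b < 2 * M ^ 4`, `0 ≤ c < 2 * M ^ 5`
have at least `M ^ 10` lines with `r = M ^ 3` of them, while every term of the conjectured bound
is at most `16 * M ^ 9`.
-/

open Module

namespace Pool.Agent.Results.MP_0eaff0_co.QuadricGrid

/-- The `r`-rich lines of `V`: the one-dimensional complex affine subspaces of `ℂ ^ d` that contain
at least `r` points of `V`. -/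
def richLines {d : ℕ} (V : Finset (Fin d → ℂ)) (r : ℕ) :
    Set (AffineSubspace ℂ (Fin d → ℂ)) :=
  {L | (L : Set (Fin d → ℂ)).Nonempty ∧ finrank ℂ L.direction = 1 ∧
    r ≤ ((V : Set (Fin d → ℂ)) ∩ (L : Set (Fin d → ℂ))).ncard}

/-- `s_l (V)`: the largest number of points of `V` on an `l`-dimensional complex affine subspace of
`ℂ ^ d`. -/
noncomputable def maxFlat {d : ℕ} (V : Finset (Fin d → ℂ)) (l : ℕ) : ℕ :=
  sSup {k | ∃ F : AffineSubspace ℂ (Fin d → ℂ), (F : Set (Fin d → ℂ)).Nonempty ∧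
    finrank ℂ F.direction = l ∧ ((V : Set (Fin d → ℂ)) ∩ (F : Set (Fin d → ℂ))).ncard = k}

/-- The bracketed expression of the question:
`n ^ 2 / r ^ (d + 1) + ∑ l from 2 to d - 1 of n * s_l / r ^ (l + 1) + n / r`, `n = |V|`. -/
noncomputable def bracket {d : ℕ} (V : Finset (Fin d → ℂ)) (r : ℕ) : ℝ :=
  (V.card : ℝ) ^ 2 / (r : ℝ) ^ (d + 1)
    + ∑ l ∈ Finset.Icc 2 (d - 1), (V.card : ℝ) * (maxFlat V l : ℝ) / (r : ℝ) ^ (l + 1)
    + (V.card : ℝ) / (r : ℝ)

/-- The point `(a, b, c, a * c - b ^ 2, 0, …, 0)`. -/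
def pt (d : ℕ) (a b c : ℂ) : Fin d → ℂ := fun i =>
  if i.val = 0 then a else if i.val = 1 then b else if i.val = 2 then c
  else if i.val = 3 then a * c - b ^ 2 else 0

/-- The direction `(1, p, p ^ 2, z - 2 * p * y, 0, …, 0)`. -/
def dirv (d : ℕ) (p y z : ℂ) : Fin d → ℂ := fun i =>
  if i.val = 0 then 1 else if i.val = 1 then p else if i.val = 2 then p ^ 2
  else if i.val = 3 then z - 2 * p * y else 0

/-- The box of parameters. -/
def box (M : ℕ) : Finset (ℕ × ℕ × ℕ) :=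
  Finset.range (M ^ 3) ×ˢ Finset.range (2 * M ^ 4) ×ˢ Finset.range (2 * M ^ 5)

/-- The point with natural number parameters. -/
def ptN (d : ℕ) (t : ℕ × ℕ × ℕ) : Fin d → ℂ := pt d (t.1 : ℂ) (t.2.1 : ℂ) (t.2.2 : ℂ)

/-- The point set. -/
noncomputable def grid (d M : ℕ) : Finset (Fin d → ℂ) :=
  (box M).image (ptN d)

section coords

variable {d : ℕ} (hd : 4 ≤ d)
include hd

lemma pt0 (a b c : ℂ) : pt d a b c ⟨0, by omega⟩ = a := by simp [pt]
lemma pt1 (a b c : ℂ) : pt d a b c ⟨1, by omega⟩ = b := by simp [pt]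
lemma pt2 (a b c : ℂ) : pt d a b c ⟨2, by omega⟩ = c := by simp [pt]
lemma pt3 (a b c : ℂ) : pt d a b c ⟨3, by omega⟩ = a * c - b ^ 2 := by simp [pt]

lemma ptN_inj : Function.Injective (ptN d) := by
  intro s t h
  have h0 := congrFun h ⟨0, by omega⟩
  have h1 := congrFun h ⟨1, by omega⟩
  have h2 := congrFun h ⟨2, by omega⟩
  simp only [ptN] at h0 h1 h2
  rw [pt0 hd, pt0 hd] at h0
  rw [pt1 hd, pt1 hd] at h1
  rw [pt2 hd, pt2 hd] at h2
  have h0' := Nat.cast_injective h0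
  have h1' := Nat.cast_injective h1
  have h2' := Nat.cast_injective h2
  ext <;> assumption

lemma card_grid (M : ℕ) : (grid d M).card = 4 * M ^ 12 := by
  unfold grid
  rw [Finset.card_image_of_injective _ (ptN_inj hd)]
  unfold box
  rw [Finset.card_product, Finset.card_product, Finset.card_range, Finset.card_range,
    Finset.card_range]
  ring

omit hd in
/-- Points of the grid on an affine subspace satisfying a relation. -/
lemma ncard_le_of_rel (M : ℕ) (F : AffineSubspace ℂ (Fin d → ℂ)) (K : ℕ)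
    (P : ℕ × ℕ × ℕ → Prop) (hP : ∀ t ∈ box M, ptN d t ∈ F → P t)
    (hK : ∀ T : Finset (ℕ × ℕ × ℕ), T ⊆ box M → (∀ t ∈ T, P t) → T.card ≤ K) :
    ((grid d M : Set (Fin d → ℂ)) ∩ (F : Set (Fin d → ℂ))).ncard ≤ K := by
  classical
  have h1 : ((grid d M : Set (Fin d → ℂ)) ∩ (F : Set (Fin d → ℂ))) ⊆
      (((box M).filter (fun t => ptN d t ∈ F)).image (ptN d) : Finset (Fin d → ℂ)) := by
    rintro v ⟨hv, hvF⟩
    have hv' : v ∈ grid d M := hv
    unfold grid at hv'
    rw [Finset.mem_image] at hv'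
    obtain ⟨t, ht, rfl⟩ := hv'
    rw [Finset.mem_coe, Finset.mem_image]
    exact ⟨t, Finset.mem_filter.2 ⟨ht, hvF⟩, rfl⟩
  refine (Set.ncard_le_ncard h1 (Finset.finite_toSet _)).trans ?_
  rw [Set.ncard_coe_finset]
  refine Finset.card_image_le.trans ?_
  refine hK _ (Finset.filter_subset _ _) ?_
  intro t ht
  rw [Finset.mem_filter] at ht
  exact hP t ht.1 ht.2

end coords

/-- The fibre bound. -/
lemma fiber_bound {γ : Type*} [DecidableEq γ] (T : Finset (ℕ × ℕ × ℕ)) (g : ℕ × ℕ × ℕ → γ)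
    (X : Finset γ) (hg : ∀ t ∈ T, g t ∈ X) (k : ℕ)
    (hk : ∀ x ∈ X, (T.filter (fun t => g t = x)).card ≤ k) : T.card ≤ k * X.card :=
  Finset.card_le_mul_card_image_of_maps_to hg k hk

/-- A quadratic equation has at most two solutions. -/
lemma quad3 (q2 q1 q0 : ℂ) (h2 : q2 ≠ 0) (x y z : ℂ)
    (hx : q2 * x ^ 2 + q1 * x + q0 = 0) (hy : q2 * y ^ 2 + q1 * y + q0 = 0)
    (hz : q2 * z ^ 2 + q1 * z + q0 = 0) (hxy : x ≠ y) (hxz : x ≠ z) : y = z := by
  have e1 : (x - y) * (q2 * (x + y) + q1) = 0 := by linear_combination hx - hy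
  have e2 : (x - z) * (q2 * (x + z) + q1) = 0 := by linear_combination hx - hz
  have e1' := (mul_eq_zero.1 e1).resolve_left (sub_ne_zero.2 hxy)
  have e2' := (mul_eq_zero.1 e2).resolve_left (sub_ne_zero.2 hxz)
  have e3 : q2 * (y - z) = 0 := by linear_combination e1' - e2'
  exact sub_eq_zero.1 ((mul_eq_zero.1 e3).resolve_left h2)

lemma fiber1 (T : Finset (ℕ × ℕ × ℕ)) (g : ℕ × ℕ × ℕ → ℕ)
    (N : ℕ) (hg : ∀ t ∈ T, g t < N)
    (h : ∀ s ∈ T, ∀ t ∈ T, g s = g t → s = t) : T.card ≤ N := by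
  have := Finset.card_le_card_of_injOn (s := T) (t := Finset.range N) g
    (fun t ht => Finset.mem_coe.2 (Finset.mem_range.2 (hg t ht)))
    (fun s hs t ht hst => h s hs t ht hst)
  simpa using this

lemma fiber2 (T : Finset (ℕ × ℕ × ℕ)) (g : ℕ × ℕ × ℕ → ℕ)
    (N : ℕ) (hg : ∀ t ∈ T, g t < N)
    (h : ∀ s ∈ T, ∀ t ∈ T, ∀ u ∈ T, g s = g t → g s = g u → s ≠ t → s ≠ u → t = u) :
    T.card ≤ 2 * N := by
  have h1 := fiber_bound T g (Finset.range N) (fun t ht => Finset.mem_range.2 (hg t ht)) 2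
    (fun x _ => by
      by_contra hc
      rw [not_le, Finset.two_lt_card] at hc
      obtain ⟨s, hs, t, ht, u, hu, hst, hsu, htu⟩ := hc
      rw [Finset.mem_filter] at hs ht hu
      exact htu (h s hs.1 t ht.1 u hu.1 (hs.2.trans ht.2.symm) (hs.2.trans hu.2.symm) hst hsu))
  simpa using h1

/-- A proper subspace lies in a hyperplane. -/
lemma exists_fun {n : ℕ} (W : Submodule ℂ (Fin n → ℂ)) (hW : finrank ℂ W < n) :
    ∃ f : Fin n → ℂ, f ≠ 0 ∧ ∀ w ∈ W, ∑ i, f i * w i = 0 := by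
  have hlt : W < ⊤ := by
    rw [lt_top_iff_ne_top]
    rintro rfl
    rw [finrank_top, Module.finrank_fin_fun] at hW
    exact lt_irrefl _ hW
  obtain ⟨f, hf, hWf⟩ := Submodule.exists_le_ker_of_lt_top W hlt
  refine ⟨fun i => f (Pi.single i 1), ?_, ?_⟩
  · intro h
    apply hf
    apply LinearMap.pi_ext
    intro i x
    have h3 : f (Pi.single i 1) = 0 := congrFun h i
    have h4 : (Pi.single i x : Fin n → ℂ) = x • Pi.single i 1 := by
      rw [← Pi.single_smul, smul_eq_mul, mul_one]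
    rw [h4, map_smul, h3, smul_zero]
    rfl
  · intro w hw
    have h1 : f w = 0 := by
      have := hWf hw
      simpa using this
    rw [← h1]
    conv_rhs => rw [LinearMap.pi_apply_eq_sum_univ f w]
    refine Finset.sum_congr rfl (fun i _ => ?_)
    have h5 : (Pi.single i 1 : Fin n → ℂ) = fun j => if i = j then 1 else 0 := by
      funext j
      rw [Pi.single_apply]
      simp [eq_comm]
    rw [smul_eq_mul, mul_comm, ← h5]

/-- Membership in the box. -/
lemma mem_box {M : ℕ} {t : ℕ × ℕ × ℕ} (ht : t ∈ box M) :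
    t.1 < M ^ 3 ∧ t.2.1 < 2 * M ^ 4 ∧ t.2.2 < 2 * M ^ 5 := by
  unfold box at ht
  rw [Finset.mem_product, Finset.mem_product, Finset.mem_range, Finset.mem_range,
    Finset.mem_range] at ht
  exact ⟨ht.1, ht.2.1, ht.2.2⟩

section flats

variable {d : ℕ} (hd : 4 ≤ d)
include hd

/-- A functional on the first four coordinates that vanishes on a subspace of directions gives a
relation on the points of the grid in the flat. -/
lemma rel_of_fun (F : AffineSubspace ℂ (Fin d → ℂ)) (f : Fin 4 → ℂ)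
    (hf : ∀ w ∈ F.direction.map (LinearMap.funLeft ℂ ℂ (Fin.castLE hd)), ∑ i, f i * w i = 0) :
    ∃ δ : ℂ, ∀ t : ℕ × ℕ × ℕ, ptN d t ∈ F →
      f 0 * (t.1 : ℂ) + f 1 * (t.2.1 : ℂ) + f 2 * (t.2.2 : ℂ)
        + f 3 * ((t.1 : ℂ) * (t.2.2 : ℂ) - (t.2.1 : ℂ) ^ 2) = δ := by
  by_cases hne : ∃ s : ℕ × ℕ × ℕ, ptN d s ∈ F
  · obtain ⟨s, hs⟩ := hne
    refine ⟨f 0 * (s.1 : ℂ) + f 1 * (s.2.1 : ℂ) + f 2 * (s.2.2 : ℂ)
        + f 3 * ((s.1 : ℂ) * (s.2.2 : ℂ) - (s.2.1 : ℂ) ^ 2), ?_⟩
    intro t ht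
    have h1 : ptN d t - ptN d s ∈ F.direction := by
      have := AffineSubspace.vsub_mem_direction ht hs
      simpa using this
    have h2 := hf _ (Submodule.mem_map_of_mem h1)
    rw [Fin.sum_univ_four] at h2
    simp only [LinearMap.funLeft_apply, Pi.sub_apply, ptN] at h2
    have e0 : (Fin.castLE hd 0 : Fin d) = ⟨0, by omega⟩ := rfl
    have e1 : (Fin.castLE hd 1 : Fin d) = ⟨1, by omega⟩ := rfl
    have e2 : (Fin.castLE hd 2 : Fin d) = ⟨2, by omega⟩ := rfl
    have e3 : (Fin.castLE hd 3 : Fin d) = ⟨3, by omega⟩ := rfl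
    rw [e0, e1, e2, e3, pt0 hd, pt0 hd, pt1 hd, pt1 hd, pt2 hd, pt2 hd, pt3 hd, pt3 hd] at h2
    linear_combination h2
  · exact ⟨0, fun t ht => absurd ⟨t, ht⟩ hne⟩

/-- A flat of dimension at most three. -/
lemma rel3 (F : AffineSubspace ℂ (Fin d → ℂ)) (hF : finrank ℂ F.direction ≤ 3) :
    ∃ f : Fin 4 → ℂ, f ≠ 0 ∧ ∃ δ : ℂ, ∀ t : ℕ × ℕ × ℕ, ptN d t ∈ F →
      f 0 * (t.1 : ℂ) + f 1 * (t.2.1 : ℂ) + f 2 * (t.2.2 : ℂ)
        + f 3 * ((t.1 : ℂ) * (t.2.2 : ℂ) - (t.2.1 : ℂ) ^ 2) = δ := by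
  have h1 : finrank ℂ (F.direction.map (LinearMap.funLeft ℂ ℂ (Fin.castLE hd))) < 4 :=
    lt_of_le_of_lt ((Submodule.finrank_map_le _ _).trans hF) (by norm_num)
  obtain ⟨f, hf0, hf⟩ := exists_fun _ h1
  exact ⟨f, hf0, rel_of_fun hd F f hf⟩

/-- A flat of dimension at most two. -/
lemma rel2 (F : AffineSubspace ℂ (Fin d → ℂ)) (hF : finrank ℂ F.direction ≤ 2) :
    ∃ g : Fin 4 → ℂ, g 3 = 0 ∧ (∃ δ : ℂ, ∀ t : ℕ × ℕ × ℕ, ptN d t ∈ F →
      g 0 * (t.1 : ℂ) + g 1 * (t.2.1 : ℂ) + g 2 * (t.2.2 : ℂ) = δ) ∧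
      ((g 2 ≠ 0 ∧ ∃ f : Fin 4 → ℂ, f ≠ 0 ∧ f 2 = 0 ∧ ∃ δ : ℂ, ∀ t : ℕ × ℕ × ℕ, ptN d t ∈ F →
        f 0 * (t.1 : ℂ) + f 1 * (t.2.1 : ℂ) + f 2 * (t.2.2 : ℂ)
        + f 3 * ((t.1 : ℂ) * (t.2.2 : ℂ) - (t.2.1 : ℂ) ^ 2) = δ) ∨
      (g 2 = 0 ∧ g 1 ≠ 0 ∧ ∃ f : Fin 4 → ℂ, f ≠ 0 ∧ f 1 = 0 ∧ ∃ δ : ℂ,
        ∀ t : ℕ × ℕ × ℕ, ptN d t ∈ F →
        f 0 * (t.1 : ℂ) + f 1 * (t.2.1 : ℂ) + f 2 * (t.2.2 : ℂ)
        + f 3 * ((t.1 : ℂ) * (t.2.2 : ℂ) - (t.2.1 : ℂ) ^ 2) = δ) ∨
      (g 2 = 0 ∧ g 1 = 0 ∧ g 0 ≠ 0 ∧ ∃ f : Fin 4 → ℂ, f ≠ 0 ∧ f 0 = 0 ∧ ∃ δ : ℂ,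
        ∀ t : ℕ × ℕ × ℕ, ptN d t ∈ F →
        f 0 * (t.1 : ℂ) + f 1 * (t.2.1 : ℂ) + f 2 * (t.2.2 : ℂ)
        + f 3 * ((t.1 : ℂ) * (t.2.2 : ℂ) - (t.2.1 : ℂ) ^ 2) = δ)) := by
  set W := F.direction.map (LinearMap.funLeft ℂ ℂ (Fin.castLE hd)) with hWdef
  have hW : finrank ℂ W ≤ 2 := (Submodule.finrank_map_le _ _).trans hF
  have hsup : ∀ u : Fin 4 → ℂ, finrank ℂ (W ⊔ Submodule.span ℂ {u} : Submodule ℂ (Fin 4 → ℂ)) < 4 := by
    intro u
    have h1 := Submodule.finrank_add_le_finrank_add_finrank W (Submodule.span ℂ {u})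
    have h2 : finrank ℂ (Submodule.span ℂ {u}) ≤ 1 := by
      have := finrank_span_le_card (R := ℂ) ({u} : Set (Fin 4 → ℂ))
      simpa using this
    omega
  have hex : ∀ i : Fin 4, ∃ f : Fin 4 → ℂ, f ≠ 0 ∧ f i = 0 ∧ ∀ w ∈ W, ∑ j, f j * w j = 0 := by
    intro i
    obtain ⟨f, hf0, hf⟩ := exists_fun _ (hsup (Pi.single i 1))
    refine ⟨f, hf0, ?_, fun w hw => hf w (Submodule.mem_sup_left hw)⟩
    have := hf (Pi.single i 1) (Submodule.mem_sup_right (Submodule.mem_span_singleton_self _))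
    simpa [Pi.single_apply] using this
  obtain ⟨g, hg0, hg3, hg⟩ := hex 3
  obtain ⟨δ, hδ⟩ := rel_of_fun hd F g hg
  refine ⟨g, hg3, ⟨δ, fun t ht => by have := hδ t ht; rw [hg3] at this; simpa using this⟩, ?_⟩
  by_cases h2 : g 2 = 0
  · by_cases h1 : g 1 = 0
    · have h0 : g 0 ≠ 0 := by
        intro h0
        apply hg0
        ext i
        fin_cases i <;> simp [h0, h1, h2, hg3]
      obtain ⟨f, hf0, hfi, hf⟩ := hex 0
      exact Or.inr (Or.inr ⟨h2, h1, h0, f, hf0, hfi, rel_of_fun hd F f hf⟩)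
    · obtain ⟨f, hf0, hfi, hf⟩ := hex 1
      exact Or.inr (Or.inl ⟨h2, h1, f, hf0, hfi, rel_of_fun hd F f hf⟩)
  · obtain ⟨f, hf0, hfi, hf⟩ := hex 2
    exact Or.inl ⟨h2, f, hf0, hfi, rel_of_fun hd F f hf⟩

end flats

lemma pair_eq {s t : ℕ × ℕ × ℕ} (h1 : (s.1 : ℂ) = t.1) (h2 : (s.2.1 : ℂ) = t.2.1)
    (h3 : (s.2.2 : ℂ) = t.2.2) : s = t :=
  Prod.ext (Nat.cast_injective h1) (Prod.ext (Nat.cast_injective h2) (Nat.cast_injective h3))

/-- A three-dimensional flat contains at most `4 * M ^ 9` points of the grid. -/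
lemma flat3 {d : ℕ} (hd : 4 ≤ d) {M : ℕ} (hM : 1 ≤ M) (F : AffineSubspace ℂ (Fin d → ℂ))
    (hF : finrank ℂ F.direction ≤ 3) :
    ((grid d M : Set (Fin d → ℂ)) ∩ (F : Set (Fin d → ℂ))).ncard ≤ 4 * M ^ 9 := by
  obtain ⟨f, hf0, δ, hδ⟩ := rel3 hd F hF
  refine ncard_le_of_rel M F _ _ (fun t _ ht => hδ t ht) ?_
  intro T hT hTP
  have hM8 : M ^ 8 ≤ M ^ 9 := Nat.pow_le_pow_right hM (by norm_num)
  have hM7 : M ^ 7 ≤ M ^ 9 := Nat.pow_le_pow_right hM (by norm_num)
  by_cases h3 : f 3 = 0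
  · by_cases h2 : f 2 = 0
    · by_cases h1 : f 1 = 0
      · have h0 : f 0 ≠ 0 := by
          intro h0
          apply hf0
          ext i
          fin_cases i <;> simp [h0, h1, h2, h3]
        -- `a` is determined by `(b, c)`
        have key : T.card ≤ (Finset.range (2 * M ^ 4) ×ˢ Finset.range (2 * M ^ 5)).card := by
          refine Finset.card_le_card_of_injOn (fun t => t.2) ?_ ?_
          · intro t ht
            have := mem_box (hT ht)
            rw [Finset.mem_coe, Finset.mem_product, Finset.mem_range, Finset.mem_range]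
            exact ⟨this.2.1, this.2.2⟩
          · intro s hs t ht hst
            have hst' : s.2 = t.2 := hst
            have e1 := hTP s hs
            have e2 := hTP t ht
            rw [h1, h2, h3] at e1 e2
            refine pair_eq ?_ (by rw [hst']) (by rw [hst'])
            apply mul_left_cancel₀ h0
            linear_combination e1 - e2
        rw [Finset.card_product, Finset.card_range, Finset.card_range] at key
        calc T.card ≤ 2 * M ^ 4 * (2 * M ^ 5) := key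
          _ = 4 * M ^ 9 := by ring
      · have key : T.card ≤ (Finset.range (M ^ 3) ×ˢ Finset.range (2 * M ^ 5)).card := by
          refine Finset.card_le_card_of_injOn (fun t => (t.1, t.2.2)) ?_ ?_
          · intro t ht
            have := mem_box (hT ht)
            rw [Finset.mem_coe, Finset.mem_product, Finset.mem_range, Finset.mem_range]
            exact ⟨this.1, this.2.2⟩
          · intro s hs t ht hst
            have hst1 : s.1 = t.1 := (Prod.ext_iff.1 hst).1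
            have hst2 : s.2.2 = t.2.2 := (Prod.ext_iff.1 hst).2
            have e1 := hTP s hs
            have e2 := hTP t ht
            rw [h2, h3, hst1, hst2] at e1
            rw [h2, h3] at e2
            refine pair_eq (by rw [hst1]) ?_ (by rw [hst2])
            apply mul_left_cancel₀ h1
            linear_combination e1 - e2
        rw [Finset.card_product, Finset.card_range, Finset.card_range] at key
        calc T.card ≤ M ^ 3 * (2 * M ^ 5) := key
          _ = 2 * M ^ 8 := by ring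
          _ ≤ 4 * M ^ 9 := by omega
    · have key : T.card ≤ (Finset.range (M ^ 3) ×ˢ Finset.range (2 * M ^ 4)).card := by
        refine Finset.card_le_card_of_injOn (fun t => (t.1, t.2.1)) ?_ ?_
        · intro t ht
          have := mem_box (hT ht)
          rw [Finset.mem_coe, Finset.mem_product, Finset.mem_range, Finset.mem_range]
          exact ⟨this.1, this.2.1⟩
        · intro s hs t ht hst
          have hst1 : s.1 = t.1 := (Prod.ext_iff.1 hst).1
          have hst2 : s.2.1 = t.2.1 := (Prod.ext_iff.1 hst).2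
          have e1 := hTP s hs
          have e2 := hTP t ht
          rw [h3, hst1, hst2] at e1
          rw [h3] at e2
          refine pair_eq (by rw [hst1]) (by rw [hst2]) ?_
          apply mul_left_cancel₀ h2
          linear_combination e1 - e2
      rw [Finset.card_product, Finset.card_range, Finset.card_range] at key
      calc T.card ≤ M ^ 3 * (2 * M ^ 4) := key
        _ = 2 * M ^ 7 := by ring
        _ ≤ 4 * M ^ 9 := by omega
  · -- for every `(a, c)` at most two values of `b`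
    have key := fiber_bound T (fun t => (t.1, t.2.2))
      (Finset.range (M ^ 3) ×ˢ Finset.range (2 * M ^ 5)) (by
        intro t ht
        have := mem_box (hT ht)
        rw [Finset.mem_product, Finset.mem_range, Finset.mem_range]
        exact ⟨this.1, this.2.2⟩) 2 (by
        intro x _
        by_contra hc
        rw [not_le, Finset.two_lt_card] at hc
        obtain ⟨s, hs, t, ht, u, hu, hst, hsu, htu⟩ := hc
        rw [Finset.mem_filter] at hs ht hu
        have a1 : s.1 = x.1 := (Prod.ext_iff.1 hs.2).1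
        have a2 : s.2.2 = x.2 := (Prod.ext_iff.1 hs.2).2
        have b1 : t.1 = x.1 := (Prod.ext_iff.1 ht.2).1
        have b2 : t.2.2 = x.2 := (Prod.ext_iff.1 ht.2).2
        have c1 : u.1 = x.1 := (Prod.ext_iff.1 hu.2).1
        have c2 : u.2.2 = x.2 := (Prod.ext_iff.1 hu.2).2
        have e1 := hTP s hs.1
        have e2 := hTP t ht.1
        have e3 := hTP u hu.1
        rw [a1, a2] at e1
        rw [b1, b2] at e2
        rw [c1, c2] at e3
        apply htu
        refine pair_eq (by rw [b1, c1]) ?_ (by rw [b2, c2])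
        refine quad3 (-f 3) (f 1) (f 0 * x.1 + f 2 * x.2 + f 3 * (x.1 * x.2) - δ)
          (neg_ne_zero.2 h3) (s.2.1) _ _ ?_ ?_ ?_ ?_ ?_
        · linear_combination e1
        · linear_combination e2
        · linear_combination e3
        · intro h
          exact hst (pair_eq (by rw [a1, b1]) h (by rw [a2, b2]))
        · intro h
          exact hsu (pair_eq (by rw [a1, c1]) h (by rw [a2, c2])))
    rw [Finset.card_product, Finset.card_range, Finset.card_range] at key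
    calc T.card ≤ 2 * (M ^ 3 * (2 * M ^ 5)) := key
      _ = 4 * M ^ 8 := by ring
      _ ≤ 4 * M ^ 9 := by omega

/-- A two-dimensional flat contains at most `4 * M ^ 5` points of the grid. -/
lemma flat2 {d : ℕ} (hd : 4 ≤ d) {M : ℕ} (hM : 1 ≤ M) (F : AffineSubspace ℂ (Fin d → ℂ))
    (hF : finrank ℂ F.direction ≤ 2) :
    ((grid d M : Set (Fin d → ℂ)) ∩ (F : Set (Fin d → ℂ))).ncard ≤ 4 * M ^ 5 := by
  classical
  obtain ⟨g, hg3, ⟨ε, hε⟩, hcases⟩ := rel2 hd F hF
  have hM3 : M ^ 3 ≤ M ^ 5 := Nat.pow_le_pow_right hM (by norm_num)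
  have hM4 : M ^ 4 ≤ M ^ 5 := Nat.pow_le_pow_right hM (by norm_num)
  rcases hcases with ⟨g2, f, hf0, hf2, δ, hδ⟩ | ⟨g2, g1, f, hf0, hf1, δ, hδ⟩ |
    ⟨g2, g1, g0, f, hf0, hf00, δ, hδ⟩
  · -- `g 2 ≠ 0`, `f 2 = 0`
    refine ncard_le_of_rel M F _ (fun t => (g 0 * (t.1 : ℂ) + g 1 * (t.2.1 : ℂ)
      + g 2 * (t.2.2 : ℂ) = ε) ∧ (f 0 * (t.1 : ℂ) + f 1 * (t.2.1 : ℂ) + f 2 * (t.2.2 : ℂ)
        + f 3 * ((t.1 : ℂ) * (t.2.2 : ℂ) - (t.2.1 : ℂ) ^ 2) = δ))
      (fun t _ ht => ⟨hε t ht, hδ t ht⟩) ?_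
    intro T hT hTP
    by_cases h3 : f 3 = 0
    · by_cases h1 : f 1 = 0
      · have h0 : f 0 ≠ 0 := by
          intro h0
          apply hf0
          ext i
          fin_cases i <;> simp [h0, h1, hf2, h3]
        have key := fiber1 T (fun t => t.2.1) (2 * M ^ 4) (fun t ht => (mem_box (hT ht)).2.1) (by
          intro s hs t ht hst
          have hst' : s.2.1 = t.2.1 := hst
          obtain ⟨r1, e1⟩ := hTP s hs
          obtain ⟨r2, e2⟩ := hTP t ht
          rw [h1, hf2, h3] at e1 e2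
          rw [hst'] at r1
          have ha : (s.1 : ℂ) = t.1 := mul_left_cancel₀ h0 (by linear_combination e1 - e2)
          refine pair_eq ha (by rw [hst']) (mul_left_cancel₀ g2 ?_)
          rw [ha] at r1
          linear_combination r1 - r2)
        omega
      · have key := fiber1 T (fun t => t.1) (M ^ 3) (fun t ht => (mem_box (hT ht)).1) (by
          intro s hs t ht hst
          have hst' : s.1 = t.1 := hst
          obtain ⟨r1, e1⟩ := hTP s hs
          obtain ⟨r2, e2⟩ := hTP t ht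
          rw [hf2, h3, hst'] at e1
          rw [hf2, h3] at e2
          rw [hst'] at r1
          have hb : (s.2.1 : ℂ) = t.2.1 := mul_left_cancel₀ h1 (by linear_combination e1 - e2)
          refine pair_eq (by rw [hst']) hb (mul_left_cancel₀ g2 ?_)
          rw [hb] at r1
          linear_combination r1 - r2)
        omega
    · have key := fiber2 T (fun t => t.1) (M ^ 3) (fun t ht => (mem_box (hT ht)).1) (by
        intro s hs t ht u hu hst hsu nst nsu
        have hst' : s.1 = t.1 := hst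
        have hsu' : s.1 = u.1 := hsu
        obtain ⟨r1, e1⟩ := hTP s hs
        obtain ⟨r2, e2⟩ := hTP t ht
        obtain ⟨r3, e3⟩ := hTP u hu
        rw [← hst'] at r2 e2
        rw [← hsu'] at r3 e3
        rw [hf2] at e1 e2 e3
        have hb : (t.2.1 : ℂ) = u.2.1 := by
          refine quad3 (-(f 3) * g 2) (f 1 * g 2 - f 3 * s.1 * g 1)
            (f 3 * s.1 * (ε - g 0 * s.1) + (f 0 * s.1 - δ) * g 2)
            (mul_ne_zero (neg_ne_zero.2 h3) g2) (s.2.1) _ _ ?_ ?_ ?_ ?_ ?_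
          · linear_combination g 2 * e1 - f 3 * s.1 * r1
          · linear_combination g 2 * e2 - f 3 * s.1 * r2
          · linear_combination g 2 * e3 - f 3 * s.1 * r3
          · intro h
            apply nst
            refine pair_eq (by rw [hst']) h (mul_left_cancel₀ g2 ?_)
            rw [h] at r1
            linear_combination r1 - r2
          · intro h
            apply nsu
            refine pair_eq (by rw [hsu']) h (mul_left_cancel₀ g2 ?_)
            rw [h] at r1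
            linear_combination r1 - r3
        refine pair_eq (by rw [← hst', hsu']) hb (mul_left_cancel₀ g2 ?_)
        rw [hb] at r2
        linear_combination r2 - r3)
      omega
  · -- `g 2 = 0`, `g 1 ≠ 0`, `f 1 = 0`
    refine ncard_le_of_rel M F _ (fun t => (g 0 * (t.1 : ℂ) + g 1 * (t.2.1 : ℂ)
      + g 2 * (t.2.2 : ℂ) = ε) ∧ (f 0 * (t.1 : ℂ) + f 1 * (t.2.1 : ℂ) + f 2 * (t.2.2 : ℂ)
        + f 3 * ((t.1 : ℂ) * (t.2.2 : ℂ) - (t.2.1 : ℂ) ^ 2) = δ))
      (fun t _ ht => ⟨hε t ht, hδ t ht⟩) ?_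
    intro T hT hTP
    by_cases h23 : f 3 = 0 ∧ f 2 = 0
    · obtain ⟨h3, h2⟩ := h23
      have h0 : f 0 ≠ 0 := by
        intro h0
        apply hf0
        ext i
        fin_cases i <;> simp [h0, hf1, h2, h3]
      have key := fiber1 T (fun t => t.2.2) (2 * M ^ 5) (fun t ht => (mem_box (hT ht)).2.2) (by
        intro s hs t ht hst
        have hst' : s.2.2 = t.2.2 := hst
        obtain ⟨r1, e1⟩ := hTP s hs
        obtain ⟨r2, e2⟩ := hTP t ht
        rw [hf1, h2, h3] at e1 e2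
        rw [g2] at r1 r2
        have ha : (s.1 : ℂ) = t.1 := mul_left_cancel₀ h0 (by linear_combination e1 - e2)
        refine pair_eq ha (mul_left_cancel₀ g1 ?_) (by rw [hst'])
        rw [ha] at r1
        linear_combination r1 - r2)
      omega
    · -- split according to `f 2 + f 3 * a = 0`
      have k1 := fiber1 (T.filter (fun t => ¬ (f 2 + f 3 * (t.1 : ℂ) = 0))) (fun t => t.1) (M ^ 3)
        (fun t ht => (mem_box (hT (Finset.mem_filter.1 ht).1)).1) (by
        intro s hs t ht hst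
        have hst' : s.1 = t.1 := hst
        rw [Finset.mem_filter] at hs ht
        obtain ⟨r1, e1⟩ := hTP s hs.1
        obtain ⟨r2, e2⟩ := hTP t ht.1
        rw [g2, hst'] at r1
        rw [g2] at r2
        rw [hf1, hst'] at e1
        rw [hf1] at e2
        have hb : (s.2.1 : ℂ) = t.2.1 := mul_left_cancel₀ g1 (by linear_combination r1 - r2)
        refine pair_eq (by rw [hst']) hb (mul_left_cancel₀ ht.2 ?_)
        rw [hb] at e1
        linear_combination e1 - e2)
      have k2 := fiber1 (T.filter (fun t => f 2 + f 3 * (t.1 : ℂ) = 0)) (fun t => t.2.2)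
        (2 * M ^ 5) (fun t ht => (mem_box (hT (Finset.mem_filter.1 ht).1)).2.2) (by
        intro s hs t ht hst
        have hst' : s.2.2 = t.2.2 := hst
        rw [Finset.mem_filter] at hs ht
        obtain ⟨r1, e1⟩ := hTP s hs.1
        obtain ⟨r2, e2⟩ := hTP t ht.1
        have h3 : f 3 ≠ 0 := by
          intro h3
          apply h23
          refine ⟨h3, ?_⟩
          have := hs.2
          rw [h3] at this
          linear_combination this
        have ha : (s.1 : ℂ) = t.1 := mul_left_cancel₀ h3 (by linear_combination hs.2 - ht.2)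
        rw [g2] at r1 r2
        refine pair_eq ha (mul_left_cancel₀ g1 ?_) (by rw [hst'])
        rw [ha] at r1
        linear_combination r1 - r2)
      have k3 := Finset.card_filter_add_card_filter_not (s := T)
        (fun t => f 2 + f 3 * (t.1 : ℂ) = 0)
      omega
  · -- `g 2 = g 1 = 0`, `g 0 ≠ 0`, `f 0 = 0`
    refine ncard_le_of_rel M F _ (fun t => (g 0 * (t.1 : ℂ) + g 1 * (t.2.1 : ℂ)
      + g 2 * (t.2.2 : ℂ) = ε) ∧ (f 0 * (t.1 : ℂ) + f 1 * (t.2.1 : ℂ) + f 2 * (t.2.2 : ℂ)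
        + f 3 * ((t.1 : ℂ) * (t.2.2 : ℂ) - (t.2.1 : ℂ) ^ 2) = δ))
      (fun t _ ht => ⟨hε t ht, hδ t ht⟩) ?_
    intro T hT hTP
    have haa : ∀ s ∈ T, ∀ t ∈ T, (s.1 : ℂ) = t.1 := by
      intro s hs t ht
      obtain ⟨r1, -⟩ := hTP s hs
      obtain ⟨r2, -⟩ := hTP t ht
      rw [g1, g2] at r1 r2
      exact mul_left_cancel₀ g0 (by linear_combination r1 - r2)
    by_cases h3 : f 3 = 0
    · by_cases h1 : f 1 = 0
      · have h2 : f 2 ≠ 0 := by
          intro h2
          apply hf0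
          ext i
          fin_cases i <;> simp [hf00, h1, h2, h3]
        have key := fiber1 T (fun t => t.2.1) (2 * M ^ 4) (fun t ht => (mem_box (hT ht)).2.1) (by
          intro s hs t ht hst
          have hst' : s.2.1 = t.2.1 := hst
          obtain ⟨r1, e1⟩ := hTP s hs
          obtain ⟨r2, e2⟩ := hTP t ht
          rw [hf00, h1, h3] at e1 e2
          exact pair_eq (haa s hs t ht) (by rw [hst'])
            (mul_left_cancel₀ h2 (by linear_combination e1 - e2)))
        omega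
      · have key := fiber1 T (fun t => t.2.2) (2 * M ^ 5) (fun t ht => (mem_box (hT ht)).2.2) (by
          intro s hs t ht hst
          have hst' : s.2.2 = t.2.2 := hst
          obtain ⟨r1, e1⟩ := hTP s hs
          obtain ⟨r2, e2⟩ := hTP t ht
          rw [hf00, h3, hst'] at e1
          rw [hf00, h3] at e2
          exact pair_eq (haa s hs t ht) (mul_left_cancel₀ h1 (by linear_combination e1 - e2))
            (by rw [hst']))
        omega
    · have key := fiber2 T (fun t => t.2.2) (2 * M ^ 5) (fun t ht => (mem_box (hT ht)).2.2) (by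
        intro s hs t ht u hu hst hsu nst nsu
        have hst' : s.2.2 = t.2.2 := hst
        have hsu' : s.2.2 = u.2.2 := hsu
        obtain ⟨r1, e1⟩ := hTP s hs
        obtain ⟨r2, e2⟩ := hTP t ht
        obtain ⟨r3, e3⟩ := hTP u hu
        rw [← hst', ← haa s hs t ht] at e2
        rw [← hsu', ← haa s hs u hu] at e3
        rw [hf00] at e1 e2 e3
        have hb : (t.2.1 : ℂ) = u.2.1 := by
          refine quad3 (-(f 3)) (f 1) (f 2 * s.2.2 + f 3 * (s.1 * s.2.2) - δ)
            (neg_ne_zero.2 h3) (s.2.1) _ _ ?_ ?_ ?_ ?_ ?_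
          · linear_combination e1
          · linear_combination e2
          · linear_combination e3
          · intro h
            exact nst (pair_eq (haa s hs t ht) h (by rw [hst']))
          · intro h
            exact nsu (pair_eq (haa s hs u hu) h (by rw [hsu']))
        exact pair_eq (haa t ht u hu) hb (by rw [← hst', hsu']))
      omega

/-- The line with parameters `(p, y, z)`. -/
def lin (d : ℕ) (t : ℕ × ℕ × ℕ) : AffineSubspace ℂ (Fin d → ℂ) :=
  AffineSubspace.mk' (pt d 0 (t.2.1 : ℂ) (t.2.2 : ℂ))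
    (Submodule.span ℂ {dirv d (t.1 : ℂ) (t.2.1 : ℂ) (t.2.2 : ℂ)})

section lines

variable {d : ℕ} (hd : 4 ≤ d)
include hd

lemma dirv0 (p y z : ℂ) : dirv d p y z ⟨0, by omega⟩ = 1 := by simp [dirv]
lemma dirv1 (p y z : ℂ) : dirv d p y z ⟨1, by omega⟩ = p := by simp [dirv]

lemma dirv_ne (p y z : ℂ) : dirv d p y z ≠ 0 := by
  intro h
  have := congrFun h ⟨0, by omega⟩
  rw [dirv0 hd] at this
  exact one_ne_zero this

omit hd in
lemma pt_sub (a p y z : ℂ) :
    pt d a (y + p * a) (z + p ^ 2 * a) - pt d 0 y z = a • dirv d p y z := by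
  funext i
  simp only [pt, dirv, Pi.sub_apply, Pi.smul_apply, smul_eq_mul]
  split_ifs <;> ring

omit hd in
lemma pt_mem_lin (t : ℕ × ℕ × ℕ) (a : ℂ) :
    pt d a (t.2.1 + t.1 * a) (t.2.2 + (t.1 : ℂ) ^ 2 * a) ∈ lin d t := by
  unfold lin
  rw [AffineSubspace.mem_mk', vsub_eq_sub, pt_sub]
  exact Submodule.smul_mem _ _ (Submodule.mem_span_singleton_self _)

lemma lin_inj : Function.Injective (lin d) := by
  intro s t h
  have h1 : pt d 0 (s.2.1 : ℂ) (s.2.2 : ℂ) ∈ lin d t := by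
    rw [← h]
    exact AffineSubspace.self_mem_mk' _ _
  unfold lin at h1
  rw [AffineSubspace.mem_mk', vsub_eq_sub, Submodule.mem_span_singleton] at h1
  obtain ⟨k, hk⟩ := h1
  have k0 := congrFun hk ⟨0, by omega⟩
  have k1 := congrFun hk ⟨1, by omega⟩
  have k2 := congrFun hk ⟨2, by omega⟩
  simp only [Pi.sub_apply, Pi.smul_apply, smul_eq_mul] at k0 k1 k2
  rw [dirv0 hd, pt0 hd, pt0 hd] at k0
  have hk0 : k = 0 := by linear_combination k0
  rw [pt1 hd, pt1 hd, hk0] at k1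
  rw [pt2 hd, pt2 hd, hk0] at k2
  have e1 : (s.2.1 : ℂ) = t.2.1 := by linear_combination -k1
  have e2 : (s.2.2 : ℂ) = t.2.2 := by linear_combination -k2
  have h3 : dirv d (s.1 : ℂ) (s.2.1 : ℂ) (s.2.2 : ℂ) ∈ (lin d t).direction := by
    rw [← h]
    unfold lin
    rw [AffineSubspace.direction_mk']
    exact Submodule.mem_span_singleton_self _
  unfold lin at h3
  rw [AffineSubspace.direction_mk', Submodule.mem_span_singleton] at h3
  obtain ⟨m, hm⟩ := h3
  have m0 := congrFun hm ⟨0, by omega⟩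
  have m1 := congrFun hm ⟨1, by omega⟩
  simp only [Pi.smul_apply, smul_eq_mul] at m0 m1
  rw [dirv0 hd, dirv0 hd] at m0
  have hm0 : m = 1 := by linear_combination m0
  rw [dirv1 hd, dirv1 hd, hm0] at m1
  exact pair_eq (by linear_combination -m1) e1 e2

lemma lin_rich {M : ℕ} (t : ℕ × ℕ × ℕ) (h1 : t.1 < M) (h2 : t.2.1 < M ^ 4)
    (h3 : t.2.2 < M ^ 5) : lin d t ∈ richLines (grid d M) (M ^ 3) := by
  classical
  refine ⟨⟨_, AffineSubspace.self_mem_mk' _ _⟩, ?_, ?_⟩
  · unfold lin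
    rw [AffineSubspace.direction_mk']
    exact finrank_span_singleton (dirv_ne hd _ _ _)
  · have hsub : (((Finset.range (M ^ 3)).image
        (fun a : ℕ => ptN d (a, t.2.1 + t.1 * a, t.2.2 + t.1 ^ 2 * a)) : Finset (Fin d → ℂ)) :
          Set (Fin d → ℂ)) ⊆ (grid d M : Set (Fin d → ℂ)) ∩ (lin d t : Set (Fin d → ℂ)) := by
      intro v hv
      rw [Finset.mem_coe, Finset.mem_image] at hv
      obtain ⟨a, ha, rfl⟩ := hv
      rw [Finset.mem_range] at ha
      constructor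
      · rw [Finset.mem_coe]
        unfold grid
        rw [Finset.mem_image]
        refine ⟨(a, t.2.1 + t.1 * a, t.2.2 + t.1 ^ 2 * a), ?_, rfl⟩
        unfold box
        rw [Finset.mem_product, Finset.mem_product, Finset.mem_range, Finset.mem_range,
          Finset.mem_range]
        refine ⟨ha, ?_, ?_⟩
        · have : t.1 * a ≤ M * M ^ 3 := Nat.mul_le_mul h1.le ha.le
          have e : M * M ^ 3 = M ^ 4 := by ring
          simp only
          omega
        · have : t.1 ^ 2 * a ≤ M ^ 2 * M ^ 3 :=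
            Nat.mul_le_mul (Nat.pow_le_pow_left h1.le 2) ha.le
          have e : M ^ 2 * M ^ 3 = M ^ 5 := by ring
          simp only
          omega
      · have := pt_mem_lin (d := d) t (a : ℂ)
        unfold ptN
        push_cast
        exact this
    have hfin : ((grid d M : Set (Fin d → ℂ)) ∩ (lin d t : Set (Fin d → ℂ))).Finite :=
      (Finset.finite_toSet _).subset Set.inter_subset_left
    have hcard := Set.ncard_le_ncard hsub hfin
    rw [Set.ncard_coe_finset, Finset.card_image_of_injective, Finset.card_range] at hcard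
    · exact hcard
    · intro a b hab
      have := ptN_inj hd hab
      exact congrArg Prod.fst this

end lines

/-- A set of points has finitely many `r`-rich lines when `r ≥ 2`. -/
lemma richLines_finite {d : ℕ} (V : Finset (Fin d → ℂ)) (r : ℕ) (hr : 2 ≤ r) :
    (richLines V r).Finite := by
  classical
  refine ((V ×ˢ V).image (fun q => affineSpan ℂ ({q.1, q.2} : Set (Fin d → ℂ)))).finite_toSet.subset
    ?_
  rintro L ⟨-, hL1, hLr⟩
  have h2 : 1 < ((V : Set (Fin d → ℂ)) ∩ (L : Set (Fin d → ℂ))).ncard := by omega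
  have hfin : ((V : Set (Fin d → ℂ)) ∩ (L : Set (Fin d → ℂ))).Finite :=
    (Finset.finite_toSet _).subset Set.inter_subset_left
  obtain ⟨P, hP, Q, hQ, hPQ⟩ := (Set.one_lt_ncard hfin).1 h2
  rw [Finset.mem_coe, Finset.mem_image]
  refine ⟨(P, Q), Finset.mem_product.2 ⟨hP.1, hQ.1⟩, ?_⟩
  have hle : affineSpan ℂ ({P, Q} : Set (Fin d → ℂ)) ≤ L := by
    rw [affineSpan_le]
    intro v hv
    rcases hv with rfl | hv
    · exact hP.2
    · rw [Set.mem_singleton_iff] at hv
      rw [hv]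
      exact hQ.2
  refine AffineSubspace.eq_of_direction_eq_of_nonempty_of_le ?_ ⟨P, ?_⟩ hle
  · refine Submodule.eq_of_le_of_finrank_eq (AffineSubspace.direction_le hle) ?_
    rw [hL1, direction_affineSpan, vectorSpan_pair]
    exact finrank_span_singleton (by
      rw [vsub_eq_sub]
      exact sub_ne_zero.2 hPQ)
  · exact subset_affineSpan ℂ _ (Set.mem_insert _ _)

lemma maxFlat_le {d : ℕ} (V : Finset (Fin d → ℂ)) (l K : ℕ)
    (h : ∀ F : AffineSubspace ℂ (Fin d → ℂ), finrank ℂ F.direction = l →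
      ((V : Set (Fin d → ℂ)) ∩ (F : Set (Fin d → ℂ))).ncard ≤ K) : maxFlat V l ≤ K := by
  unfold maxFlat
  refine csSup_le' ?_
  rintro k ⟨F, -, hF, rfl⟩
  exact h F hF

lemma maxFlat_le_card {d : ℕ} (V : Finset (Fin d → ℂ)) (l : ℕ) : maxFlat V l ≤ V.card := by
  refine maxFlat_le V l _ (fun F _ => ?_)
  refine (Set.ncard_le_ncard Set.inter_subset_left (Finset.finite_toSet _)).trans ?_
  rw [Set.ncard_coe_finset]

/-- The number of rich lines. -/
lemma rich_count {d : ℕ} (hd : 4 ≤ d) {M : ℕ} (hM : 2 ≤ M) :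
    M ^ 10 ≤ (richLines (grid d M) (M ^ 3)).ncard := by
  classical
  have hr : 2 ≤ M ^ 3 := hM.trans (Nat.le_self_pow (by norm_num) M)
  have hsub : (((Finset.range M ×ˢ Finset.range (M ^ 4) ×ˢ Finset.range (M ^ 5)).image (lin d) :
      Finset (AffineSubspace ℂ (Fin d → ℂ))) : Set (AffineSubspace ℂ (Fin d → ℂ))) ⊆
      richLines (grid d M) (M ^ 3) := by
    intro L hL
    rw [Finset.mem_coe, Finset.mem_image] at hL
    obtain ⟨t, ht, rfl⟩ := hL
    rw [Finset.mem_product, Finset.mem_product, Finset.mem_range, Finset.mem_range,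
      Finset.mem_range] at ht
    exact lin_rich hd t ht.1 ht.2.1 ht.2.2
  have h1 := Set.ncard_le_ncard hsub (richLines_finite _ _ hr)
  rw [Set.ncard_coe_finset, Finset.card_image_of_injective _ (lin_inj hd), Finset.card_product,
    Finset.card_product, Finset.card_range, Finset.card_range, Finset.card_range] at h1
  calc M ^ 10 = M * (M ^ 4 * M ^ 5) := by ring
    _ ≤ _ := h1

/-- The bracket is at most `16 * d * M ^ 9`. -/
lemma bracket_le {d : ℕ} (hd : 4 ≤ d) {M : ℕ} (hM : 2 ≤ M) :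
    bracket (grid d M) (M ^ 3) ≤ 16 * d * (M : ℝ) ^ 9 := by
  have hM1 : 1 ≤ M := by omega
  have hMr : (1 : ℝ) ≤ (M : ℝ) := by exact_mod_cast hM1
  have hM0 : (0 : ℝ) < (M : ℝ) := by linarith
  have hcard : ((grid d M).card : ℝ) = 4 * (M : ℝ) ^ 12 := by
    rw [card_grid hd]
    push_cast
    ring
  have hr5 : ∀ k : ℕ, 5 ≤ k → (M : ℝ) ^ 15 ≤ ((M : ℝ) ^ 3) ^ k := by
    intro k hk
    rw [← pow_mul]
    exact pow_le_pow_right₀ hMr (by omega)
  have hterm5 : ∀ (k : ℕ) (s : ℝ), 5 ≤ k → 0 ≤ s → s ≤ 4 * (M : ℝ) ^ 12 →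
      (4 * (M : ℝ) ^ 12) * s / ((M : ℝ) ^ 3) ^ k ≤ 16 * (M : ℝ) ^ 9 := by
    intro k s hk hs0 hs
    rw [div_le_iff₀ (by positivity)]
    have h1 := hr5 k hk
    have h2 : (0 : ℝ) ≤ 16 * (M : ℝ) ^ 9 := by positivity
    calc (4 * (M : ℝ) ^ 12) * s ≤ (4 * (M : ℝ) ^ 12) * (4 * (M : ℝ) ^ 12) :=
          mul_le_mul_of_nonneg_left hs (by positivity)
      _ = 16 * (M : ℝ) ^ 9 * (M : ℝ) ^ 15 := by ring
      _ ≤ 16 * (M : ℝ) ^ 9 * ((M : ℝ) ^ 3) ^ k := mul_le_mul_of_nonneg_left h1 h2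
  unfold bracket
  rw [hcard]
  push_cast
  have t1 : (4 * (M : ℝ) ^ 12) ^ 2 / ((M : ℝ) ^ 3) ^ (d + 1) ≤ 16 * (M : ℝ) ^ 9 := by
    rw [pow_two]
    exact hterm5 (d + 1) _ (by omega) (by positivity) le_rfl
  have t2 : ∀ l ∈ Finset.Icc 2 (d - 1),
      (4 * (M : ℝ) ^ 12) * (maxFlat (grid d M) l : ℝ) / ((M : ℝ) ^ 3) ^ (l + 1)
        ≤ 16 * (M : ℝ) ^ 9 := by
    intro l hl
    rw [Finset.mem_Icc] at hl
    rcases Nat.lt_or_ge l 4 with h4 | h4
    · rcases Nat.lt_or_ge l 3 with h3 | h3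
      · have hl2 : l = 2 := by omega
        subst hl2
        have hs : (maxFlat (grid d M) 2 : ℝ) ≤ 4 * (M : ℝ) ^ 5 := by
          have := maxFlat_le (grid d M) 2 (4 * M ^ 5) (fun F hF => flat2 hd hM1 F hF.le)
          exact_mod_cast this
        rw [div_le_iff₀ (by positivity)]
        calc (4 * (M : ℝ) ^ 12) * (maxFlat (grid d M) 2 : ℝ)
            ≤ (4 * (M : ℝ) ^ 12) * (4 * (M : ℝ) ^ 5) :=
              mul_le_mul_of_nonneg_left hs (by positivity)
          _ = 16 * (M : ℝ) ^ 17 := by ring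
          _ ≤ 16 * (M : ℝ) ^ 18 :=
              mul_le_mul_of_nonneg_left (pow_le_pow_right₀ hMr (by norm_num)) (by norm_num)
          _ = 16 * (M : ℝ) ^ 9 * ((M : ℝ) ^ 3) ^ (2 + 1) := by ring
      · have hl3 : l = 3 := by omega
        subst hl3
        have hs : (maxFlat (grid d M) 3 : ℝ) ≤ 4 * (M : ℝ) ^ 9 := by
          have := maxFlat_le (grid d M) 3 (4 * M ^ 9) (fun F hF => flat3 hd hM1 F hF.le)
          exact_mod_cast this
        rw [div_le_iff₀ (by positivity)]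
        calc (4 * (M : ℝ) ^ 12) * (maxFlat (grid d M) 3 : ℝ)
            ≤ (4 * (M : ℝ) ^ 12) * (4 * (M : ℝ) ^ 9) :=
              mul_le_mul_of_nonneg_left hs (by positivity)
          _ = 16 * (M : ℝ) ^ 9 * ((M : ℝ) ^ 3) ^ (3 + 1) := by ring
    · refine hterm5 (l + 1) _ (by omega) (by positivity) ?_
      have := maxFlat_le_card (grid d M) l
      rw [card_grid hd] at this
      exact_mod_cast this
  have t3 : 4 * (M : ℝ) ^ 12 / (M : ℝ) ^ 3 ≤ 16 * (M : ℝ) ^ 9 := by
    rw [div_le_iff₀ (by positivity)]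
    have : (0 : ℝ) ≤ (M : ℝ) ^ 12 := by positivity
    calc 4 * (M : ℝ) ^ 12 ≤ 16 * (M : ℝ) ^ 12 := by linarith
      _ = 16 * (M : ℝ) ^ 9 * (M : ℝ) ^ 3 := by ring
  have t2' := Finset.sum_le_sum t2
  rw [Finset.sum_const, Nat.card_Icc, nsmul_eq_mul] at t2'
  have hcast : ((d - 1 + 1 - 2 : ℕ) : ℝ) = (d : ℝ) - 2 := by
    have : d - 1 + 1 - 2 = d - 2 := by omega
    rw [this, Nat.cast_sub (by omega)]
    norm_num
  rw [hcast] at t2'
  calc _ ≤ 16 * (M : ℝ) ^ 9 + ((d : ℝ) - 2) * (16 * (M : ℝ) ^ 9) + 16 * (M : ℝ) ^ 9 :=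
        add_le_add (add_le_add t1 t2') t3
    _ = 16 * d * (M : ℝ) ^ 9 := by ring

/-- For every dimension `d ≥ 4` the conjectured bound on the number of rich lines fails, by a power
of the number of points, and for point sets with real coordinates. -/
theorem result (d : ℕ) (hd : 4 ≤ d) :
    ∃ c : ℝ, 0 < c ∧ ∀ n₀ : ℕ, ∃ (V : Finset (Fin d → ℂ)) (r : ℕ),
      n₀ ≤ V.card ∧ 2 ≤ r ∧ (∀ v ∈ V, ∀ i, (v i).im = 0) ∧ (richLines V r).Finite ∧
      c * (V.card : ℝ) ^ ((1 : ℝ) / 12) * bracket V r < ((richLines V r).ncard : ℝ) := by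
  have hd0 : (0 : ℝ) < (d : ℝ) := by exact_mod_cast (by omega : 0 < d)
  refine ⟨1 / (64 * d), by positivity, ?_⟩
  intro n₀
  set M : ℕ := n₀ + 2 with hMdef
  have hM : 2 ≤ M := by omega
  have hM0 : (0 : ℝ) < (M : ℝ) := by exact_mod_cast (by omega : 0 < M)
  have hr : 2 ≤ M ^ 3 := hM.trans (Nat.le_self_pow (by norm_num) M)
  refine ⟨grid d M, M ^ 3, ?_, hr, ?_, richLines_finite _ _ hr, ?_⟩
  · rw [card_grid hd]
    have : M ≤ M ^ 12 := Nat.le_self_pow (by norm_num) M
    omega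
  · intro v hv i
    unfold grid at hv
    rw [Finset.mem_image] at hv
    obtain ⟨t, -, rfl⟩ := hv
    unfold ptN pt
    split_ifs
    · exact Complex.natCast_im _
    · exact Complex.natCast_im _
    · exact Complex.natCast_im _
    · have : ((t.1 : ℂ) * (t.2.2 : ℂ) - (t.2.1 : ℂ) ^ 2)
          = (((t.1 : ℝ) * (t.2.2 : ℝ) - (t.2.1 : ℝ) ^ 2 : ℝ) : ℂ) := by
        push_cast
        ring
      rw [this]
      exact Complex.ofReal_im _
    · exact Complex.zero_im
  · have h1 : ((grid d M).card : ℝ) ^ ((1 : ℝ) / 12) ≤ 2 * (M : ℝ) := by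
      have e1 : ((grid d M).card : ℝ) ≤ (2 * (M : ℝ)) ^ 12 := by
        rw [card_grid hd]
        push_cast
        have : (0 : ℝ) ≤ (M : ℝ) ^ 12 := by positivity
        calc 4 * (M : ℝ) ^ 12 ≤ 4096 * (M : ℝ) ^ 12 := by linarith
          _ = (2 * (M : ℝ)) ^ 12 := by ring
      have e2 : ((2 * (M : ℝ)) ^ 12) ^ ((1 : ℝ) / 12) = 2 * (M : ℝ) := by
        have := Real.pow_rpow_inv_natCast (x := 2 * (M : ℝ)) (n := 12) (by positivity)
          (by norm_num)
        rw [one_div]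
        exact_mod_cast this
      calc _ ≤ ((2 * (M : ℝ)) ^ 12) ^ ((1 : ℝ) / 12) :=
            Real.rpow_le_rpow (by positivity) e1 (by norm_num)
        _ = _ := e2
    have h2 := bracket_le hd hM
    have h3 : ((M : ℝ)) ^ 10 ≤ ((richLines (grid d M) (M ^ 3)).ncard : ℝ) := by
      exact_mod_cast rich_count hd hM
    have hb0 : 0 ≤ bracket (grid d M) (M ^ 3) := by
      unfold bracket
      positivity
    calc 1 / (64 * (d : ℝ)) * ((grid d M).card : ℝ) ^ ((1 : ℝ) / 12) * bracket (grid d M) (M ^ 3)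
        ≤ 1 / (64 * (d : ℝ)) * (2 * (M : ℝ)) * (16 * d * (M : ℝ) ^ 9) := by
          refine mul_le_mul (mul_le_mul_of_nonneg_left h1 (by positivity)) h2 hb0 (by positivity)
      _ = (M : ℝ) ^ 10 / 2 := by
          field_simp
          ring
      _ < (M : ℝ) ^ 10 := by
          have : (0 : ℝ) < (M : ℝ) ^ 10 := by positivity
          linarith
      _ ≤ _ := h3

end Pool.Agent.Results.MP_0eaff0_co.QuadricGrid
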